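import Mathlib

namespace Pool.Agent.Results.MP_6c2242_co.AdditiveNotRegular

open Finset

/-- `(V, 𝓑)` is a Steiner 2-design, i.e. a `2-(v,k,1)` design with `v = |V|` and `2 ≤ k ≤ v`. -/
def IsSteinerDesign {V : Type} [Fintype V] (𝓑 : Finset (Finset V)) (k : ℕ) : Prop :=
  2 ≤ k ∧ k ≤ Fintype.card V ∧ (∀ B ∈ 𝓑, B.card = k) ∧
    ∀ x y : V, x ≠ y → ∃! B : Finset V, B ∈ 𝓑 ∧ x ∈ B ∧ y ∈ B

/-- The design is strictly `G`-additive: some bijection `f : V → G` makes every block zero-sum. -/
def StrictlyAdditive {V : Type} (G : Type) [AddCommGroup G] (𝓑 : Finset (Finset V)) : Prop :=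
  ∃ f : V ≃ G, ∀ B ∈ 𝓑, ∑ b ∈ B, f b = 0

/-- The design is `G`-regular: `G` acts on `V` by automorphisms of the design, sharply
transitively (so that the image of `G` in the automorphism group is isomorphic to `G`). -/
def Regular {V : Type} [DecidableEq V] (G : Type) [AddCommGroup G] (𝓑 : Finset (Finset V)) :
    Prop :=
  ∃ φ : Multiplicative G →* Equiv.Perm V,
    (∀ g, ∀ B ∈ 𝓑, B.image (φ g) ∈ 𝓑) ∧ ∀ x y : V, ∃! g, φ g x = y

/-- The group `ℤ₄ × ℤ₂ × ℤ₂`. -/
abbrev H : Type := ZMod 4 × ZMod 2 × ZMod 2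

/-- Codes of twenty 4-subsets of `ℤ₄ × ℤ₂ × ℤ₂`: bit `a + 4 b + 8 c` of a code says whether
`(a, b, c)` lies in the subset.  They form a zero-sum copy of the affine plane of order 4. -/
def mask (i : Fin 20) : ℕ :=
  ([2307, 85, 12297, 16929, 33921, 912, 21760, 8484, 33096, 9234, 4674, 170, 49158, 18456, 6276, 3168, 43520, 36912, 1548, 24768] : List ℕ).getD i.val 0

/-- Incidence of the point `x` and the `i`-th block. -/
def inc (i : Fin 20) (x : H) : Bool :=
  (mask i).testBit (x.1.val + 4 * x.2.1.val + 8 * x.2.2.val)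

/-- The `i`-th block. -/
def blk (i : Fin 20) : Finset H := univ.filter (fun x => inc i x = true)

/-- The twenty blocks. -/
def blocks : Finset (Finset H) := univ.image blk

lemma mem_blk (i : Fin 20) (x : H) : x ∈ blk i ↔ inc i x = true := by
  simp [blk]

lemma blk_card : ∀ i : Fin 20, (blk i).card = 4 := by decide +kernel

lemma blk_sum : ∀ i : Fin 20, ∑ b ∈ blk i, b = 0 := by decide +kernel

lemma pair_unique : ∀ x y : H, x ≠ y → ∃ i : Fin 20, (inc i x = true ∧ inc i y = true) ∧
    ∀ j : Fin 20, inc j x = true → inc j y = true → j = i := by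
  decide +kernel

lemma steiner : IsSteinerDesign blocks 4 := by
  refine ⟨by norm_num, by decide, ?_, ?_⟩
  · intro B hB
    obtain ⟨i, -, rfl⟩ := mem_image.mp hB
    exact blk_card i
  · intro x y hxy
    obtain ⟨i, ⟨hx, hy⟩, hu⟩ := pair_unique x y hxy
    refine ⟨blk i, ⟨mem_image_of_mem _ (mem_univ i), (mem_blk i x).mpr hx,
      (mem_blk i y).mpr hy⟩, ?_⟩
    rintro C ⟨hC, hxC, hyC⟩
    obtain ⟨j, -, rfl⟩ := mem_image.mp hC
    rw [hu j ((mem_blk j x).mp hxC) ((mem_blk j y).mp hyC)]

lemma additive : StrictlyAdditive H blocks := by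
  refine ⟨Equiv.refl H, ?_⟩
  intro B hB
  obtain ⟨i, -, rfl⟩ := mem_image.mp hB
  exact blk_sum i

/-- `w` is an involution outside `{(2,0,0)}` and outside the Klein group of `a` and `(0,1,0)`. -/
def GoodW (a w : H) : Prop :=
  w + w = 0 ∧ w ≠ 0 ∧ w ≠ (2, 0, 0) ∧ w ≠ (0, 1, 0) ∧ w ≠ a ∧ w ≠ a + (0, 1, 0)

instance (a w : H) : Decidable (GoodW a w) := by unfold GoodW; infer_instance

/-- The Klein groups `⟨a, (0,1,0)⟩` and `⟨b, w⟩` share a nonzero element. -/
def Meet (a w b : H) : Prop :=
  ∃ z : H, z ≠ 0 ∧ (z = (0, 1, 0) ∨ z = a ∨ z = a + (0, 1, 0)) ∧ (z = w ∨ z = b ∨ z = b + w)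

instance (a w b : H) : Decidable (Meet a w b) := by unfold Meet; infer_instance

/-- Every Klein group containing `w` meets the Klein group `⟨a, (0,1,0)⟩` nontrivially. -/
def AllB (a w : H) : Prop := ∀ b : H, b + b = 0 → b ≠ 0 → b ≠ w → Meet a w b

instance (a w : H) : Decidable (AllB a w) := by unfold AllB; infer_instance

/-- There is a suitable `w` for `a`. -/
def ExW (a : H) : Prop := ∃ w : H, GoodW a w ∧ AllB a w

instance (a : H) : Decidable (ExW a) := by unfold ExW; infer_instance

/-- The finite fact about `ℤ₄ × ℤ₂ × ℤ₂` behind the non-regularity. -/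
lemma finite_fact : ∀ a : H, a + a = 0 → a ≠ 0 → a ≠ (0, 1, 0) → ExW a := by
  decide +kernel

lemma two_torsion : ∀ a : H, a + a = 0 ∨ a + a = (2, 0, 0) := by decide +kernel

/-- No Steiner 2-design with 16 points and block size 4 admits a sharply transitive action of
`ℤ₄ × ℤ₂ × ℤ₂` by automorphisms. -/
lemma not_regular {V : Type} [Fintype V] [DecidableEq V] [Nonempty V] (𝓑 : Finset (Finset V))
    (hD : IsSteinerDesign 𝓑 4) : ¬ Regular H 𝓑 := by
  rintro ⟨φ, hφ, hreg⟩
  obtain ⟨x0⟩ := (inferInstance : Nonempty V)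
  obtain ⟨-, -, hcard, huniq⟩ := hD
  set act : H → V → V := fun g => φ (Multiplicative.ofAdd g) with hact
  have act0 : ∀ x, act 0 x = x := by
    intro x
    simp only [hact]
    rw [ofAdd_zero, map_one]
    rfl
  have actadd : ∀ g h x, act (g + h) x = act g (act h x) := by
    intro g h x
    simp only [hact]
    rw [ofAdd_add, map_mul]
    rfl
  have actinj : ∀ g h, act g x0 = act h x0 → g = h := by
    intro g h hgh
    obtain ⟨k, _, hk⟩ := hreg x0 (act h x0)
    have h1 := hk (Multiplicative.ofAdd g) hgh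
    have h2 := hk (Multiplicative.ofAdd h) rfl
    exact Multiplicative.ofAdd.injective (h1.trans h2.symm)
  have actsurj : ∀ y, ∃ g, act g x0 = y := by
    intro y
    obtain ⟨k, hk, _⟩ := hreg x0 y
    exact ⟨Multiplicative.toAdd k, hk⟩
  have himg : ∀ g, ∀ B ∈ 𝓑, B.image (act g) ∈ 𝓑 := fun g B hB => hφ _ B hB
  -- the block through `x0` and `act u x0` for an involution `u ≠ (2,0,0)`
  have key : ∀ u : H, u + u = 0 → u ≠ 0 → u ≠ (2, 0, 0) → ∃ B ∈ 𝓑, x0 ∈ B ∧ ∃ a : H,
      a + a = 0 ∧ a ≠ 0 ∧ a ≠ u ∧ ∀ g : H, act g x0 ∈ B ↔ (g = 0 ∨ g = u ∨ g = a ∨ g = a + u) := by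
    intro u hu2 hu0 hut
    have hne : x0 ≠ act u x0 := by
      intro h
      apply hu0
      apply actinj
      rw [act0, ← h]
    obtain ⟨B, ⟨hB, hx0, hux0⟩, hBu⟩ := huniq x0 (act u x0) hne
    have hBstab : B.image (act u) = B := by
      apply hBu
      refine ⟨himg u B hB, ?_, mem_image_of_mem _ hx0⟩
      have : act u (act u x0) ∈ B.image (act u) := mem_image_of_mem _ hux0
      rwa [← actadd, hu2, act0] at this
    have hstab : ∀ g, act g x0 ∈ B → act (g + u) x0 ∈ B := by
      intro g hg
      have : act u (act g x0) ∈ B.image (act u) := mem_image_of_mem _ hg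
      rwa [hBstab, ← actadd, add_comm] at this
    have hc := hcard B hB
    -- pick a further point
    obtain ⟨y, hyB, hy⟩ : ∃ y ∈ B, y ∉ ({x0, act u x0} : Finset V) := by
      by_contra hcon
      push Not at hcon
      have h1 : B ⊆ {x0, act u x0} := hcon
      have h2 := card_le_card h1
      have h3 : ({x0, act u x0} : Finset V).card ≤ 2 := card_le_two
      omega
    obtain ⟨a, rfl⟩ := actsurj y
    have ha0 : a ≠ 0 := by
      rintro rfl
      apply hy
      rw [act0]
      simp
    have hau : a ≠ u := by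
      rintro rfl
      apply hy
      simp
    have hauB := hstab a hyB
    have hnd : ∀ g h, g ≠ h → act g x0 ≠ act h x0 := fun g h hgh he => hgh (actinj g h he)
    have hau0 : a + u ≠ 0 := by
      intro h
      apply hau
      have : a + u = u + u := by rw [h, hu2]
      exact add_right_cancel this
    have hset : B = {act 0 x0, act u x0, act a x0, act (a + u) x0} := by
      symm
      apply eq_of_subset_of_card_le
      · intro z hz
        simp only [mem_insert, mem_singleton] at hz
        rcases hz with rfl | rfl | rfl | rfl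
        · rw [act0]; exact hx0
        · exact hux0
        · exact hyB
        · exact hauB
      · rw [hc]
        have h1 : act a x0 ∉ ({act (a + u) x0} : Finset V) := by
          rw [mem_singleton]
          apply hnd
          intro h
          apply hu0
          have : a + 0 = a + u := by rw [add_zero]; exact h
          exact (add_left_cancel this).symm
        have h2 : act u x0 ∉ ({act a x0, act (a + u) x0} : Finset V) := by
          rw [mem_insert, mem_singleton, not_or]
          refine ⟨hnd _ _ (Ne.symm hau), hnd _ _ ?_⟩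
          intro h
          apply ha0
          have : 0 + u = a + u := by rw [zero_add]; exact h
          exact (add_right_cancel this).symm
        have h3 : act 0 x0 ∉ ({act u x0, act a x0, act (a + u) x0} : Finset V) := by
          rw [mem_insert, mem_insert, mem_singleton, not_or, not_or]
          exact ⟨hnd _ _ (Ne.symm hu0), hnd _ _ (Ne.symm ha0), hnd _ _ (Ne.symm hau0)⟩
        rw [card_insert_of_notMem h3, card_insert_of_notMem h2, card_insert_of_notMem h1,
          card_singleton]
    have hiff : ∀ g : H, act g x0 ∈ B ↔ (g = 0 ∨ g = u ∨ g = a ∨ g = a + u) := by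
      intro g
      rw [hset]
      simp only [mem_insert, mem_singleton]
      constructor
      · rintro (h | h | h | h)
        · exact Or.inl (actinj _ _ h)
        · exact Or.inr (Or.inl (actinj _ _ h))
        · exact Or.inr (Or.inr (Or.inl (actinj _ _ h)))
        · exact Or.inr (Or.inr (Or.inr (actinj _ _ h)))
      · rintro (rfl | rfl | rfl | rfl) <;> simp
    -- translate by `-a`
    have hneg : B.image (act (-a)) = B := by
      apply hBu
      refine ⟨himg (-a) B hB, ?_, ?_⟩
      · have : act (-a) (act a x0) ∈ B.image (act (-a)) := mem_image_of_mem _ hyB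
        rwa [← actadd, neg_add_cancel, act0] at this
      · have : act (-a) (act (a + u) x0) ∈ B.image (act (-a)) := mem_image_of_mem _ hauB
        rwa [← actadd, neg_add_cancel_left] at this
    have hnegmem : act (-a) x0 ∈ B := by
      have : act (-a) x0 ∈ B.image (act (-a)) := mem_image_of_mem _ hx0
      rwa [hneg] at this
    have ha2 : a + a = 0 := by
      rcases (hiff (-a)).mp hnegmem with h | h | h | h
      · exact absurd (neg_eq_zero.mp h) ha0
      · exfalso
        apply hau
        have h1 : -u = u := by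
          rw [neg_eq_iff_add_eq_zero]; exact hu2
        rw [← neg_neg a, h, h1]
      · have h1 : a = -a := h.symm
        nth_rewrite 2 [h1]
        exact add_neg_cancel a
      · -- `-a = a + u`, so `a + a = -u = u`
        have h1 : a + a = -u := by
          have h2 : a + (a + u) = 0 := by rw [← h]; exact add_neg_cancel a
          rw [← add_assoc] at h2
          exact eq_neg_of_add_eq_zero_left h2
        have h3 : -u = u := by
          rw [neg_eq_iff_add_eq_zero]; exact hu2
        rw [h3] at h1
        rcases two_torsion a with h4 | h4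
        · exact h4
        · exact absurd (h1.symm.trans h4) hut
    exact ⟨B, hB, hx0, a, ha2, ha0, hau, hiff⟩
  obtain ⟨B, hB, hx0B, a, ha2, ha0, hau, hiff⟩ := key (0, 1, 0) (by decide) (by decide)
    (by decide)
  obtain ⟨w, ⟨hw2, hw0, hwt, hwu, hwa, hwau⟩, hfin⟩ := finite_fact a ha2 ha0 hau
  obtain ⟨C, hC, hx0C, b, hb2, hb0, hbw, hiffC⟩ := key w hw2 hw0 hwt
  obtain ⟨z, hz0, hzB, hzC⟩ := hfin b hb2 hb0 hbw
  have hzB' : act z x0 ∈ B := (hiff z).mpr (Or.inr hzB)
  have hzC' : act z x0 ∈ C := (hiffC z).mpr (Or.inr hzC)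
  have hne : x0 ≠ act z x0 := by
    intro h
    apply hz0
    apply actinj
    rw [act0, ← h]
  have hBC : B = C :=
    (huniq x0 (act z x0) hne).unique ⟨hB, hx0B, hzB'⟩ ⟨hC, hx0C, hzC'⟩
  have hwC : act w x0 ∈ C := (hiffC w).mpr (Or.inr (Or.inl rfl))
  rw [← hBC] at hwC
  rcases (hiff w).mp hwC with h | h | h | h
  · exact hw0 h
  · exact hwu h
  · exact hwa h
  · exact hwau h

/-- There are a finite abelian group `G` and a Steiner 2-design that is strictly `G`-additive but
not `G`-regular; `G = ℤ₄ × ℤ₂ × ℤ₂` and a `2-(16,4,1)` design do. -/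
theorem result : ∃ (G : Type) (_ : AddCommGroup G) (_ : Fintype G) (V : Type) (_ : Fintype V)
    (_ : DecidableEq V) (𝓑 : Finset (Finset V)) (k : ℕ), k < Fintype.card V ∧
      IsSteinerDesign 𝓑 k ∧ StrictlyAdditive G 𝓑 ∧ ¬ Regular G 𝓑 :=
  ⟨H, inferInstance, inferInstance, H, inferInstance, inferInstance, blocks, 4, by decide,
    steiner, additive, not_regular blocks steiner⟩

end Pool.Agent.Results.MP_6c2242_co.AdditiveNotRegular
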